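import Pool.Agent.TCK.Tests

/-!
# Coset enumeration certificates for groups
-/

namespace TCK

variable {G : Type*} [Group G]

/-- the value of a word -/
def evw (ev : ℕ → G) : List ℕ → G
  | [] => 1
  | a :: L => ev a * evw ev L

lemma evw_append (ev : ℕ → G) (L M : List ℕ) : evw ev (L ++ M) = evw ev L * evw ev M := by
  induction L with
  | nil => simp [evw]
  | cons a L ih => simp [evw, ih, mul_assoc]

lemma evw_powL (ev : ℕ → G) (m : ℕ) (u : List ℕ) : evw ev (powL m u) = (evw ev u) ^ m := by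
  induction m with
  | zero => simp [powL, evw]
  | succ m ih => rw [powL, evw_append, ih, pow_succ']

/-- the letters `0` and `1` are inverse to each other, the others are involutions, `15` is trivial -/
structure Lt (ev : ℕ → G) : Prop where
  h15 : ev 15 = 1
  hiv : ∀ a, a < 16 → ev a * ev (iv a) = 1

lemma Lt.inv {ev : ℕ → G} (h : Lt ev) {a : ℕ} (ha : a < 16) : ev (iv a) = (ev a)⁻¹ :=
  (inv_eq_of_mul_eq_one_right (h.hiv a ha)).symm

lemma pth_mul (ev : ℕ → G) (L : List ℕ) (g : G) :
    pth (fun a (ω : G) => ω * ev a) L g = g * evw ev L := by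
  induction L generalizing g with
  | nil => simp [pth, evw]
  | cons a L ih =>
    have h : pth (fun a (ω : G) => ω * ev a) (a :: L) g = pth (fun a (ω : G) => ω * ev a) L (g * ev a) := rfl
    rw [h, ih, evw, mul_assoc]

/-- certificates of identities -/
theorem identities {ev : ℕ → G} (h : Lt ev) {d : ℕ} {specs : List (ℕ × ℕ)} {prog : List (List ℕ)}
    {ws : List ℕ} (hspecs : ∀ p ∈ specs, (evw ev (wd 64 p.1)) ^ p.2 = 1)
    (hc : checkW d [] specs prog ws = true) : ∀ code ∈ ws, evw ev (wd 256 code) = 1 := by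
  intro code hcode
  have := checkW_sound (act := fun a (ω : G) => ω * ev a) (ω₀ := 1) (by intro ω; simp [h.h15])
    (by intro a ha ω; simp only [h.inv ha]; group) (d := d) (subs := []) (specs := specs) (prog := prog)
    (ws := ws) (by intro a ha; simp at ha)
    (by intro p hp ω; rw [pth_mul, evw_powL, hspecs p hp, mul_one]) hc code hcode
  rw [pth_mul, one_mul] at this
  exact this

lemma pth_quot (ev : ℕ → G) (H : Subgroup G) (L : List ℕ) (ω : G ⧸ H) :
    pth (fun a (ω : G ⧸ H) => (ev a)⁻¹ • ω) L ω = (evw ev L)⁻¹ • ω := by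
  induction L generalizing ω with
  | nil => simp [pth, evw]
  | cons a L ih =>
    have h : pth (fun a (ω : G ⧸ H) => (ev a)⁻¹ • ω) (a :: L) ω =
      pth (fun a (ω : G ⧸ H) => (ev a)⁻¹ • ω) L ((ev a)⁻¹ • ω) := rfl
    rw [h, ih, evw, mul_inv_rev, mul_smul]

/-- certificates of membership in a subgroup -/
theorem members {ev : ℕ → G} (h : Lt ev) (H : Subgroup G) {d : ℕ} {subs : List ℕ}
    {specs : List (ℕ × ℕ)} {prog : List (List ℕ)} {ws : List ℕ}
    (hsubs : ∀ a ∈ subs, a < 16 ∧ ev a ∈ H)
    (hspecs : ∀ p ∈ specs, (evw ev (wd 64 p.1)) ^ p.2 = 1)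
    (hc : checkW d subs specs prog ws = true) : ∀ code ∈ ws, evw ev (wd 256 code) ∈ H := by
  intro code hcode
  have := checkW_sound (act := fun a (ω : G ⧸ H) => (ev a)⁻¹ • ω) (ω₀ := ((1 : G) : G ⧸ H))
    (by intro ω; simp [h.h15])
    (by intro a ha ω; simp only [h.inv ha]; rw [← mul_smul]; simp) (d := d) (subs := subs) (specs := specs)
    (prog := prog) (ws := ws)
    (by
      intro a ha
      refine ⟨(hsubs a ha).1, ?_⟩
      change (((ev a)⁻¹ * 1 : G) : G ⧸ H) = _
      rw [mul_one, QuotientGroup.eq]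
      simpa using (hsubs a ha).2)
    (by intro p hp ω; rw [pth_quot, evw_powL, hspecs p hp]; simp) hc code hcode
  rw [pth_quot] at this
  have h2 : (((evw ev (wd 256 code))⁻¹ * 1 : G) : G ⧸ H) = ((1 : G) : G ⧸ H) := this
  rw [mul_one, QuotientGroup.eq] at h2
  simpa using h2

end TCK
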