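import Mathlib

/-!
# Kernel-checkable unsatisfiability proofs (helper57)

A literal is a natural number, `2 i` for the variable `i` and `2 i + 1` for its negation; a clause is the bit mask of
its literals.  `check d base prog` checks a proof by reverse unit propagation with hints: `prog` is a list of
clauses, each with a list of hints `8192 * (number of a clause) + literal`.  `check_sound`: if the check succeeds then
the clauses in `base` cannot all hold.
-/

set_option autoImplicit false

namespace TCK

namespace Sat

/-- the literal `k` -/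
def lit (v : ℕ → Prop) (k : ℕ) : Prop := if k % 2 = 0 then v (k / 2) else ¬ v (k / 2)

/-- the clause with the mask `m` -/
def sem (v : ℕ → Prop) (m : ℕ) : Prop := ∃ k, m.testBit k = true ∧ lit v k

/-- binary tree of clauses -/
inductive T : Type
  | leaf (b : ℕ) : T
  | node (l r : T) : T

/-- the clause with number `q` -/
noncomputable def getK (t : T) : ℕ → (ℕ → Bool) → Bool :=
  T.rec (motive := fun _ => ℕ → (ℕ → Bool) → Bool)
    (fun b _ c => c b)
    (fun _ _ gl gr q c => Nat.rec (motive := fun _ => Bool) false
      (fun q' _ => Nat.rec (motive := fun _ => Bool) (gl q' c) (fun _ _ => gr q' c)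
        (Nat.mod q (nat_lit 2))) (Nat.add (Nat.div q (nat_lit 2)) (nat_lit 1))) t

/-- insert the clause `v` with number `q` -/
noncomputable def setK (t : T) : ℕ → ℕ → (T → Bool) → Bool :=
  T.rec (motive := fun _ => ℕ → ℕ → (T → Bool) → Bool)
    (fun _ _ v c => c (T.leaf v))
    (fun l r sl sr q v c => Nat.rec (motive := fun _ => Bool) false
      (fun q' _ => Nat.rec (motive := fun _ => Bool)
        (sl q' v (fun l' => c (T.node l' r)))
        (fun _ _ => sr q' v (fun r' => c (T.node l r')))
        (Nat.mod q (nat_lit 2))) (Nat.add (Nat.div q (nat_lit 2)) (nat_lit 1))) t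

/-- the tree of depth `d` with all clauses `v 0 or not v 0` -/
noncomputable def fullK (d : ℕ) : (T → Bool) → Bool :=
  Nat.rec (motive := fun _ => (T → Bool) → Bool) (fun c => c (T.leaf (nat_lit 3)))
    (fun _ ih c => ih (fun t => c (T.node t t))) d

/-- unit propagation along the hints; `F` is the mask of the false literals -/
noncomputable def hintsK (t : T) (hs : List ℕ) : ℕ → Bool :=
  List.rec (motive := fun _ => ℕ → Bool) (fun _ => false)
    (fun h _ ih F => getK t (Nat.div h (nat_lit 8192)) (fun c =>
      Nat.rec (motive := fun _ => Bool) true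
        (fun _ _ => Nat.rec (motive := fun _ => Bool) false (fun k _ =>
          Nat.rec (motive := fun _ => Bool)
            (Nat.rec (motive := fun _ => Bool) false (fun F' _ => ih F')
              (Nat.add (Nat.lor F (Nat.shiftLeft (nat_lit 1) (Nat.xor k (nat_lit 1)))) (nat_lit 1)))
            (fun _ _ => false)
            (Nat.sub c (Nat.land c (Nat.lor F (Nat.shiftLeft (nat_lit 1) k)))))
          (Nat.add (Nat.mod h (nat_lit 8192)) (nat_lit 1)))
        (Nat.sub c (Nat.land c F)))) hs

/-- the derivation; it succeeds as soon as the empty clause has been derived -/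
noncomputable def progK (prog : List (ℕ × List ℕ)) : T → ℕ → Bool :=
  List.rec (motive := fun _ => T → ℕ → Bool) (fun _ _ => false)
    (fun s _ ih t n => Prod.rec (motive := fun _ => Bool) (fun c hs =>
      Bool.rec (motive := fun _ => Bool) false
        (Nat.rec (motive := fun _ => Bool) true
          (fun _ _ => setK t n c (fun t' =>
            Nat.rec (motive := fun _ => Bool) false (fun n' _ => ih t' n')
              (Nat.add n (nat_lit 2)))) c)
        (hintsK t hs c)) s) prog

/-- load the clauses of `base` -/
noncomputable def baseK (base : List ℕ) : T → ℕ → (T → ℕ → Bool) → Bool :=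
  List.rec (motive := fun _ => T → ℕ → (T → ℕ → Bool) → Bool) (fun t n c => c t n)
    (fun b _ ih t n c => setK t n b (fun t' =>
      Nat.rec (motive := fun _ => Bool) false (fun n' _ => ih t' n' c)
        (Nat.add n (nat_lit 2)))) base

/-- the checker -/
noncomputable def check (d : ℕ) (base : List ℕ) (prog : List (ℕ × List ℕ)) : Bool :=
  fullK d (fun t => baseK base t (nat_lit 0) (fun t' n => progK prog t' n))

/-! ### soundness -/

/-- all clauses of the tree hold -/
def good (v : ℕ → Prop) : T → Prop
  | T.leaf b => sem v b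
  | T.node l r => good v l ∧ good v r

theorem sem_three (v : ℕ → Prop) : sem v 3 := by
  by_cases h : v 0
  · exact ⟨0, by decide, by simpa [lit] using h⟩
  · exact ⟨1, by decide, by simpa [lit] using h⟩

theorem getK_sound {v : ℕ → Prop} (t : T) : ∀ (q : ℕ) (c : ℕ → Bool), good v t →
    getK t q c = true → ∃ m, sem v m ∧ c m = true := by
  induction t with
  | leaf b => exact fun q c h1 h2 => ⟨b, h1, h2⟩
  | node l r ihl ihr =>
    intro q c h1 h2
    have h3 : getK (T.node l r) q c = Nat.rec (motive := fun _ => Bool) (getK l (q / 2) c)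
        (fun _ _ => getK r (q / 2) c) (q % 2) := rfl
    rw [h3] at h2
    rcases Nat.mod_two_eq_zero_or_one q with h4 | h4
    · rw [h4] at h2
      exact ihl _ c h1.1 h2
    · rw [h4] at h2
      exact ihr _ c h1.2 h2

theorem setK_sound {v : ℕ → Prop} (t : T) : ∀ (q m : ℕ) (c : T → Bool), good v t → sem v m →
    setK t q m c = true → ∃ t', good v t' ∧ c t' = true := by
  induction t with
  | leaf b => exact fun q m c h1 h2 h3 => ⟨T.leaf m, h2, h3⟩
  | node l r ihl ihr =>
    intro q m c h1 h2 h3
    have h4 : setK (T.node l r) q m c = Nat.rec (motive := fun _ => Bool)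
        (setK l (q / 2) m (fun l' => c (T.node l' r)))
        (fun _ _ => setK r (q / 2) m (fun r' => c (T.node l r'))) (q % 2) := rfl
    rw [h4] at h3
    rcases Nat.mod_two_eq_zero_or_one q with h5 | h5
    · rw [h5] at h3
      obtain ⟨l', h6, h7⟩ := ihl _ m _ h1.1 h2 h3
      exact ⟨T.node l' r, ⟨h6, h1.2⟩, h7⟩
    · rw [h5] at h3
      obtain ⟨r', h6, h7⟩ := ihr _ m _ h1.2 h2 h3
      exact ⟨T.node l r', ⟨h1.1, h6⟩, h7⟩

theorem fullK_sound {v : ℕ → Prop} (d : ℕ) : ∀ c : T → Bool, fullK d c = true →
    ∃ t, good v t ∧ c t = true := by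
  induction d with
  | zero => exact fun c h => ⟨T.leaf 3, sem_three v, h⟩
  | succ d ih =>
    intro c h
    obtain ⟨t, h1, h2⟩ := ih (fun t => c (T.node t t)) h
    exact ⟨T.node t t, ⟨h1, h1⟩, h2⟩

theorem testBit_of_sub {c F : ℕ} (h : Nat.sub c (Nat.land c F) = 0) (k : ℕ)
    (hk : c.testBit k = true) : F.testBit k = true := by
  have h1 : c - (c &&& F) = 0 := h
  have h2 : c &&& F = c := le_antisymm Nat.and_le_left (Nat.sub_eq_zero_iff_le.1 h1)
  rw [← h2, Nat.testBit_and] at hk
  simp only [Bool.and_eq_true] at hk
  exact hk.2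

theorem lit_xor (v : ℕ → Prop) (k : ℕ) (h : lit v k) : ¬ lit v (k ^^^ 1) := by
  have h1 : (k ^^^ 1) / 2 = k / 2 := by
    rw [Nat.xor_div_two]
    simp
  have h2 : (k ^^^ 1) % 2 = 1 - k % 2 := by
    rcases Nat.mod_two_eq_zero_or_one k with h3 | h3
    · rw [h3, Nat.xor_mod_two_eq_one]
      simp [h3]
    · have h4 : ¬ (k ^^^ 1) % 2 = 1 := by
        rw [Nat.xor_mod_two_eq_one]
        simp [h3]
      omega
  unfold lit at h ⊢
  rw [h1, h2]
  rcases Nat.mod_two_eq_zero_or_one k with h3 | h3
  · simp only [h3] at h ⊢
    simpa using h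
  · simp only [h3] at h ⊢
    simpa using h

theorem hintsK_sound {v : ℕ → Prop} (t : T) (ht : good v t) (hs : List ℕ) : ∀ F : ℕ,
    (∀ k, F.testBit k = true → ¬ lit v k) → hintsK t hs F = true → False := by
  induction hs with
  | nil =>
    intro F _ h
    have h1 : hintsK t [] F = false := rfl
    rw [h1] at h
    exact Bool.noConfusion h
  | cons h tl ih =>
    intro F hF hh
    have h1 : hintsK t (h :: tl) F = getK t (h / 8192) (fun c =>
      Nat.rec (motive := fun _ => Bool) true
        (fun _ _ => Nat.rec (motive := fun _ => Bool) (hintsK t tl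
            (Nat.lor F (Nat.shiftLeft 1 (Nat.xor (h % 8192) 1))))
          (fun _ _ => false)
          (Nat.sub c (Nat.land c (Nat.lor F (Nat.shiftLeft 1 (h % 8192))))))
        (Nat.sub c (Nat.land c F))) := rfl
    rw [h1] at hh
    obtain ⟨c, hc, h2⟩ := getK_sound t _ _ ht hh
    obtain ⟨k, hk, hl⟩ := hc
    rcases Nat.eq_zero_or_pos (Nat.sub c (Nat.land c F)) with h3 | h3
    · exact hF k (testBit_of_sub h3 k hk) hl
    · obtain ⟨x, hx⟩ := Nat.exists_eq_succ_of_ne_zero h3.ne'
      rw [hx] at h2
      rcases Nat.eq_zero_or_pos (Nat.sub c (Nat.land c (Nat.lor F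
        (Nat.shiftLeft 1 (h % 8192))))) with h4 | h4
      · rw [h4] at h2
        have h5 := testBit_of_sub h4 k hk
        have h6 : (F ||| (1 <<< (h % 8192))).testBit k = true := h5
        have h7 : k = h % 8192 := by
          by_contra hne
          rw [Nat.testBit_or, Bool.or_eq_true] at h6
          rcases h6 with h6 | h6
          · exact hF k h6 hl
          · rw [Nat.one_shiftLeft, Nat.testBit_two_pow] at h6
            simp at h6
            exact hne h6.symm
        refine ih _ ?_ h2
        intro j hj
        have h8 : (F ||| (1 <<< ((h % 8192) ^^^ 1))).testBit j = true := hj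
        rw [Nat.testBit_or, Bool.or_eq_true] at h8
        rcases h8 with h8 | h8
        · exact hF j h8
        · rw [Nat.one_shiftLeft, Nat.testBit_two_pow] at h8
          have h9 : (h % 8192) ^^^ 1 = j := by simpa using h8
          rw [← h9, ← h7]
          exact lit_xor v k hl
      · obtain ⟨y, hy⟩ := Nat.exists_eq_succ_of_ne_zero h4.ne'
        rw [hy] at h2
        exact Bool.noConfusion h2

theorem progK_sound {v : ℕ → Prop} (prog : List (ℕ × List ℕ)) : ∀ (t : T) (n : ℕ), good v t →
    progK prog t n = true → False := by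
  induction prog with
  | nil => exact fun t n _ h => Bool.noConfusion h
  | cons s tl ih =>
    intro t n ht h
    obtain ⟨c, hs⟩ := s
    have h1 : progK ((c, hs) :: tl) t n = Bool.rec (motive := fun _ => Bool) false
        (Nat.rec (motive := fun _ => Bool) true
          (fun _ _ => setK t n c (fun t' => progK tl t' (n + 1))) c) (hintsK t hs c) := rfl
    rw [h1] at h
    have hsem : hintsK t hs c = true → sem v c := by
      intro h2
      by_contra h3
      refine hintsK_sound t ht hs c (fun k hk hl => h3 ⟨k, hk, hl⟩) h2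
    cases h2 : hintsK t hs c with
    | false =>
      rw [h2] at h
      exact Bool.noConfusion h
    | true =>
      rw [h2] at h
      have h3 := hsem h2
      rcases Nat.eq_zero_or_pos c with h4 | h4
      · rw [h4] at h3
        obtain ⟨k, hk, _⟩ := h3
        simp at hk
      · obtain ⟨x, hx⟩ := Nat.exists_eq_succ_of_ne_zero h4.ne'
        have h5 : setK t n c (fun t' => progK tl t' (n + 1)) = true := by
          rw [hx] at h ⊢
          exact h
        obtain ⟨t', h6, h7⟩ := setK_sound t n c _ ht h3 h5
        exact ih t' _ h6 h7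

theorem baseK_sound {v : ℕ → Prop} (base : List ℕ) : ∀ (t : T) (n : ℕ) (c : T → ℕ → Bool),
    (∀ b ∈ base, sem v b) → good v t → baseK base t n c = true →
    ∃ t' n', good v t' ∧ c t' n' = true := by
  induction base with
  | nil => exact fun t n c _ ht h => ⟨t, n, ht, h⟩
  | cons b tl ih =>
    intro t n c hb ht h
    have h1 : baseK (b :: tl) t n c = setK t n b (fun t' => baseK tl t' (n + 1) c) := rfl
    rw [h1] at h
    obtain ⟨t', h2, h3⟩ := setK_sound t n b _ ht (hb b (List.mem_cons_self ..)) h
    exact ih t' _ c (fun b' hb' => hb b' (List.mem_cons_of_mem _ hb')) h2 h3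

/-- If the check succeeds then the clauses of `base` do not all hold. -/
theorem check_sound {v : ℕ → Prop} (d : ℕ) (base : List ℕ) (prog : List (ℕ × List ℕ))
    (h : check d base prog = true) (hb : ∀ b ∈ base, sem v b) : False := by
  obtain ⟨t, h1, h2⟩ := fullK_sound (v := v) d _ h
  obtain ⟨t', n', h3, h4⟩ := baseK_sound base t _ _ hb h1 h2
  exact progK_sound prog t' n' h3 h4

/-- a small test: `v0 or v1`, `v0 or not v1`, `not v0 or v1`, `not v0 or not v1` -/
theorem check_test : check 4 [5, 9, 6, 10] [(1, [0 * 8192 + 2, 1 * 8192]), (0, [4 * 8192, 2 * 8192 + 2, 3 * 8192])] = true := by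
  decide +kernel

end Sat

end TCK
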