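import Pool.Agent.TCK.Sound

/-!
# Coset enumeration certificates: several words to test, and the version for groups
-/

namespace TCK

/-- walk the word `L` from the coset `i`, passing to the representative before every letter -/
noncomputable def walkR (t : Tr) (L : List ℕ) : ℕ → (ℕ → St) → St :=
  List.rec (motive := fun _ => ℕ → (ℕ → St) → St) (fun i c => repK t (nat_lit 64) i c)
    (fun a _ ih i c => repK t (nat_lit 64) i (fun i' =>
      Nat.rec (motive := fun _ => St) St.bad (fun j _ => ih j c)
        (get t (Nat.add (Nat.mul (nat_lit 16) i') a)))) L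

/-- the words with the given codes fix the coset `0` -/
noncomputable def testsK (t : Tr) (n : ℕ) (l : List ℕ) : St :=
  List.rec (motive := fun _ => St) (St.ok t n) (fun code _ ih =>
    wdK (nat_lit 256) code (fun L => walkR t L (nat_lit 0) (fun e =>
      Nat.rec (motive := fun _ => St) ih (fun _ _ => St.bad) e))) l

/-- final tests -/
noncomputable def finT (l : List ℕ) (s : St) : St :=
  St.rec (motive := fun _ => St) St.bad (fun t n => testsK t n l) s

/-- the check with a list of words -/
noncomputable def checkW (d : ℕ) (subs : List ℕ) (specs : List (ℕ × ℕ)) (prog : List (List ℕ))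
    (ws : List ℕ) : Bool :=
  isOk (finT ws (fullK d (fun t0 => subsK subs t0 (fun t1 =>
    relsK specs (fun R => progK R prog t1 (nat_lit 1))))))

section Sound

variable {Ω : Type*} {act : ℕ → Ω → Ω} {ω₀ : Ω}

lemma isOk_natRec {x : ℕ} {z : St} {s : ℕ → St → St}
    (h : isOk (Nat.rec (motive := fun _ => St) z s x) = true) :
    (x = 0 ∧ isOk z = true) ∨ ∃ y, x = y + 1 ∧
      isOk (s y (Nat.rec (motive := fun _ => St) z s y)) = true := by
  rcases x with _ | y
  · left; exact ⟨rfl, h⟩
  · right; exact ⟨y, rfl, h⟩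

lemma isOk_repK (h15 : ∀ ω, act 15 ω = ω) {f : ℕ → Ω} {t : Tr} {n : ℕ} (hg : Good act f t n) (m : ℕ) :
    ∀ (i : ℕ) (c : ℕ → St), i < n → isOk (repK t m i c) = true →
      ∃ e, e < n ∧ f e = f i ∧ isOk (c e) = true := by
  induction m with
  | zero => intro i c _ h; exact absurd h (by simp [repK, isOk])
  | succ m ih =>
    intro i c hi h
    have h4 : isOk (Nat.rec (motive := fun _ => St) (c i) (fun j _ => repK t m j c)
      (get t (16 * i + 15))) = true := h
    rcases isOk_natRec h4 with ⟨_, h5⟩ | ⟨j, hj, h5⟩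
    · exact ⟨i, hi, rfl, h5⟩
    · have h6 := hg.get (by norm_num) hj
      rw [h15] at h6
      obtain ⟨e, he, hf, hc⟩ := ih j c h6.2.1 h5
      exact ⟨e, he, by rw [hf, h6.2.2], hc⟩

lemma isOk_walkR (h15 : ∀ ω, act 15 ω = ω) {f : ℕ → Ω} {t : Tr} {n : ℕ} (hg : Good act f t n)
    (L : List ℕ) : ∀ (i : ℕ) (c : ℕ → St), (∀ a ∈ L, a < 16) → i < n →
      isOk (walkR t L i c) = true → ∃ e, e < n ∧ f e = pth act L (f i) ∧ isOk (c e) = true := by
  induction L with
  | nil => intro i c _ hi h; exact isOk_repK h15 hg 64 i c hi h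
  | cons a L ih =>
    intro i c hL hi h
    have h1 : isOk (repK t 64 i (fun i' => Nat.rec (motive := fun _ => St) St.bad
        (fun j _ => walkR t L j c) (get t (16 * i' + a)))) = true := h
    obtain ⟨i', hi', hf, h2⟩ := isOk_repK h15 hg 64 i _ hi h1
    rcases isOk_natRec h2 with ⟨_, h3⟩ | ⟨j, hj, h3⟩
    · exact absurd h3 (by simp [isOk])
    · have h4 := hg.get (hL a (by simp)) hj
      obtain ⟨e, he, hfe, hc⟩ := ih j c (fun b hb => hL b (by simp [hb])) h4.2.1 h3
      refine ⟨e, he, ?_, hc⟩
      rw [hfe, ← h4.2.2, hf]; rfl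

lemma isOk_testsK (h15 : ∀ ω, act 15 ω = ω) {f : ℕ → Ω} {t : Tr} {n : ℕ} (hg : Good act f t n)
    (hn : 0 < n) (l : List ℕ) (h : isOk (testsK t n l) = true) :
    ∀ code ∈ l, pth act (wd 256 code) (f 0) = f 0 := by
  induction l with
  | nil => intro code hc; simp at hc
  | cons code l ih =>
    have h1 : isOk (wdK 256 code (fun L => walkR t L 0 (fun e =>
      Nat.rec (motive := fun _ => St) (testsK t n l) (fun _ _ => St.bad) e))) = true := h
    rw [wdK_eq] at h1
    obtain ⟨e, he, hfe, h2⟩ := isOk_walkR h15 hg _ 0 _ (wd_lt 256 code) hn h1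
    rcases isOk_natRec h2 with ⟨he0, h3⟩ | ⟨j, hj, h3⟩
    · intro code' hc'
      rcases List.mem_cons.1 hc' with rfl | hc'
      · rw [← hfe, he0]
      · exact ih h3 code' hc'
    · exact absurd h3 (by simp [isOk])

lemma repK_zero {t : Tr} (hz : ∀ k, get t k = 0) (i : ℕ) (c : ℕ → St) : repK t 64 i c = c i := by
  change (Nat.rec (motive := fun _ => St) (c i) (fun j _ => repK t 63 j c) (get t (16 * i + 15))) = c i
  rw [hz]; rfl

lemma testsK_zero {t : Tr} (hz : ∀ k, get t k = 0) {n : ℕ} (l : List ℕ)
    (h : isOk (testsK t n l) = true) : ∀ code ∈ l, wd 256 code = [] := by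
  induction l with
  | nil => intro code hc; simp at hc
  | cons code l ih =>
    have h1 : isOk (wdK 256 code (fun L => walkR t L 0 (fun e =>
      Nat.rec (motive := fun _ => St) (testsK t n l) (fun _ _ => St.bad) e))) = true := h
    rw [wdK_eq] at h1
    rcases hw : wd 256 code with _ | ⟨a, L⟩
    · rw [hw] at h1
      have h2 : isOk (repK t 64 0 (fun e =>
        Nat.rec (motive := fun _ => St) (testsK t n l) (fun _ _ => St.bad) e)) = true := h1
      rw [repK_zero hz] at h2
      intro code' hc'
      rcases List.mem_cons.1 hc' with rfl | hc'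
      · exact hw
      · exact ih h2 code' hc'
    · exfalso
      rw [hw] at h1
      have h2 : isOk (repK t 64 0 (fun i' => Nat.rec (motive := fun _ => St) St.bad
        (fun j _ => walkR t L j (fun e =>
          Nat.rec (motive := fun _ => St) (testsK t n l) (fun _ _ => St.bad) e))
        (get t (16 * i' + a)))) = true := h1
      rw [repK_zero hz, hz] at h2
      exact absurd h2 (by simp [isOk])

/-- a state is good, and the number of cosets is positive -/
lemma check_good (h15 : ∀ ω, act 15 ω = ω) (hiv : ∀ a, a < 16 → ∀ ω, act (iv a) (act a ω) = ω)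
    {d : ℕ} {subs : List ℕ} {specs : List (ℕ × ℕ)} {prog : List (List ℕ)}
    (hsubs : ∀ a ∈ subs, a < 16 ∧ act a ω₀ = ω₀)
    (hspecs : ∀ p ∈ specs, ∀ ω, pth act (powL p.2 (wd 64 p.1)) ω = ω) :
    GoodSt act ω₀ (fullK d (fun t0 => subsK subs t0 (fun t1 =>
      relsK specs (fun R => progK R prog t1 1)))) := by
  obtain ⟨t, ht, h0⟩ := fullK_spec d (fun t0 => subsK subs t0 (fun t1 =>
    relsK specs (fun R => progK R prog t1 1)))
  rw [ht]
  refine goodSt_subsK subs hsubs t _ (fun _ => ω₀) rfl ⟨by norm_num, ?_⟩ ?_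
  · intro k j hk; rw [h0] at hk; exact absurd hk (by omega)
  · intro t' ht'
    refine goodSt_relsK hiv specs hspecs _ ?_
    intro R hR
    exact goodSt_progK h15 hiv hR prog t' 1 ⟨_, rfl, ht'⟩

/-- soundness of the checker with tests -/
theorem checkW_sound (h15 : ∀ ω, act 15 ω = ω) (hiv : ∀ a, a < 16 → ∀ ω, act (iv a) (act a ω) = ω)
    {d : ℕ} {subs : List ℕ} {specs : List (ℕ × ℕ)} {prog : List (List ℕ)} {ws : List ℕ}
    (hsubs : ∀ a ∈ subs, a < 16 ∧ act a ω₀ = ω₀)
    (hspecs : ∀ p ∈ specs, ∀ ω, pth act (powL p.2 (wd 64 p.1)) ω = ω)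
    (hc : checkW d subs specs prog ws = true) : ∀ code ∈ ws, pth act (wd 256 code) ω₀ = ω₀ := by
  have hG := check_good (act := act) (ω₀ := ω₀) (d := d) h15 hiv (prog := prog) hsubs hspecs
  have hc' : isOk (finT ws (fullK d (fun t0 => subsK subs t0 (fun t1 =>
      relsK specs (fun R => progK R prog t1 1))))) = true := hc
  generalize fullK d (fun t0 => subsK subs t0 (fun t1 =>
      relsK specs (fun R => progK R prog t1 1))) = s at hG hc'
  rcases s with _ | ⟨t, n⟩
  · exact absurd hc' (by simp [finT, isOk])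
  obtain ⟨f, hf0, hg⟩ := hG
  have h1 : isOk (testsK t n ws) = true := hc'
  rcases Nat.eq_zero_or_pos n with h0 | hn
  · -- no cosets: every look-up fails, so there is no test
    intro code hcode
    subst h0
    have hz : ∀ k, get t k = 0 := by
      intro k
      rcases hk : get t k with _ | j
      · rfl
      · exact absurd (hg.2 k j hk).2.1 (by omega)
    rw [testsK_zero hz ws h1 code hcode]; rfl
  · intro code hcode
    have := isOk_testsK h15 hg hn ws h1 code hcode
    rw [hf0] at this
    exact this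

end Sound

end TCK
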